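import Pool.Agent.Y68.CG.KBZa

/-!
CB3-G-KBZ: bound of the kernel from the product formula.
-/

set_option autoImplicit false

namespace Pool.Agent.Y68.CG

open Finset Filter Topology MeasureTheory
open Pool.Agent.W711.HT Pool.Agent.Y472
open scoped Real

lemma Lm_ii (χ : ℂ) (a b : ℝ) : IntervalIntegrable (Lm χ) volume a b := by
  have hA : AnalyticOnNhd ℝ (fun θ : ℝ => 2 * Complex.cos (χ / 2) + 2 * Complex.cos (θ : ℂ))
      (Set.uIcc a b) := by
    intro s _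
    have h1 : AnalyticAt ℝ (fun θ : ℝ => ((Real.cos θ : ℝ) : ℂ)) s :=
      (Complex.ofRealCLM.analyticAt _).comp Real.analyticAt_cos
    have h2 : (fun θ : ℝ => 2 * Complex.cos (χ / 2) + 2 * Complex.cos (θ : ℂ)) =
        fun θ : ℝ => 2 * Complex.cos (χ / 2) + 2 * ((Real.cos θ : ℝ) : ℂ) := by
      funext θ
      rw [Complex.ofReal_cos]
    rw [h2]
    exact analyticAt_const.add (analyticAt_const.mul h1)
  exact hA.meromorphicOn.intervalIntegrable_log_norm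

/-- the comparison function -/
noncomputable def gc (u : ℝ) : ℝ := Real.log ‖2 * Real.cos u‖

lemma gc_ii (a b : ℝ) : IntervalIntegrable gc volume a b := by
  have hA : AnalyticOnNhd ℝ (fun θ : ℝ => 2 * Real.cos θ) (Set.uIcc a b) := by
    intro s _
    exact analyticAt_const.mul Real.analyticAt_cos
  exact hA.meromorphicOn.intervalIntegrable_log_norm

lemma gc_uc {ε : ℝ} (hε : 0 < ε) : ∃ δ : ℝ, 0 < δ ∧ ∀ a b : ℝ, |a| ≤ 10 → |b| ≤ 10 →
    |b - a| ≤ δ → |∫ u in a..b, gc u| ≤ ε := by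
  have hc : Continuous fun x : ℝ => ∫ u in (0:ℝ)..x, gc u :=
    intervalIntegral.continuous_primitive (fun a b => gc_ii a b) 0
  have hu : UniformContinuousOn (fun x : ℝ => ∫ u in (0:ℝ)..x, gc u) (Set.Icc (-10) 10) :=
    isCompact_Icc.uniformContinuousOn_of_continuous hc.continuousOn
  rw [Metric.uniformContinuousOn_iff] at hu
  obtain ⟨δ, hδ, h⟩ := hu ε hε
  refine ⟨δ / 2, by positivity, fun a b ha hb hab => ?_⟩
  have h1 := h b (abs_le.1 hb) a (abs_le.1 ha) (by rw [Real.dist_eq]; linarith)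
  rw [Real.dist_eq, intervalIntegral.integral_interval_sub_left (gc_ii _ _) (gc_ii _ _)] at h1
  exact h1.le

lemma cos_ae (β : ℝ) : ∀ᵐ θ : ℝ, Real.cos (1 / 2 * θ + β) ≠ 0 := by
  have h1 : ({θ : ℝ | Real.cos (1 / 2 * θ + β) = 0}).Countable := by
    refine (Set.countable_range (fun k : ℤ => 2 * ((2 * (k : ℝ) + 1) * π / 2 - β))).mono ?_
    intro θ hθ
    obtain ⟨k, hk⟩ := Real.cos_eq_zero_iff.1 hθ
    exact ⟨k, by simp only; rw [← hk]; ring⟩
  exact h1.ae_notMem volume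

lemma norm_cos_ge (z : ℂ) : |Real.cos z.re| ≤ ‖Complex.cos z‖ := by
  have h1 : (Complex.cos z).re = Real.cos z.re * Real.cosh z.im := by
    rw [Complex.cos_eq z]
    simp
    left
    rfl
  have h2 := Complex.abs_re_le_norm (Complex.cos z)
  rw [h1, abs_mul] at h2
  have h3 : (1 : ℝ) ≤ |Real.cosh z.im| := by
    rw [abs_of_pos (Real.cosh_pos _)]
    exact Real.one_le_cosh _
  nlinarith [abs_nonneg (Real.cos z.re)]

lemma Lm_ge (χ : ℂ) (θ : ℝ) (h1 : Real.cos (1 / 2 * θ + χ.re / 4) ≠ 0)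
    (h2 : Real.cos (1 / 2 * θ + -(χ.re / 4)) ≠ 0) :
    gc (1 / 2 * θ + χ.re / 4) + gc (1 / 2 * θ + -(χ.re / 4)) ≤ Lm χ θ := by
  have n1 : 0 < ‖2 * Real.cos (1 / 2 * θ + χ.re / 4)‖ := norm_pos_iff.2 (by simpa using h1)
  have n2 : 0 < ‖2 * Real.cos (1 / 2 * θ + -(χ.re / 4))‖ := norm_pos_iff.2 (by simpa using h2)
  unfold gc Lm
  rw [← Real.log_mul n1.ne' n2.ne']
  apply Real.log_le_log (by positivity)
  have e : 2 * Complex.cos (χ / 2) + 2 * Complex.cos (θ : ℂ) =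
      (2 * Complex.cos ((θ + χ / 2) / 2)) * (2 * Complex.cos ((θ - χ / 2) / 2)) := by
    have := Complex.cos_add_cos (θ : ℂ) (χ / 2)
    linear_combination 2 * this
  have e6 : ‖(2 * Complex.cos ((θ + χ / 2) / 2)) * (2 * Complex.cos ((θ - χ / 2) / 2))‖ =
      (2 * ‖Complex.cos ((θ + χ / 2) / 2)‖) * (2 * ‖Complex.cos ((θ - χ / 2) / 2)‖) := by
    rw [norm_mul, norm_mul, norm_mul, Complex.norm_ofNat]
  have e7 : ∀ y : ℝ, ‖2 * y‖ = 2 * |y| := by
    intro y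
    rw [norm_mul, Real.norm_eq_abs, Real.norm_eq_abs, abs_of_pos (by norm_num : (0:ℝ) < 2)]
  rw [e, e6, e7, e7]
  have a1 := norm_cos_ge ((θ + χ / 2) / 2)
  have a2 := norm_cos_ge ((θ - χ / 2) / 2)
  have r1 : ((θ + χ / 2) / 2 : ℂ).re = 1 / 2 * θ + χ.re / 4 := by
    simp
    ring
  have r2 : ((θ - χ / 2) / 2 : ℂ).re = 1 / 2 * θ + -(χ.re / 4) := by
    simp
    ring
  rw [r1] at a1
  rw [r2] at a2
  refine mul_le_mul ?_ ?_ (by positivity) (by positivity)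
  · linarith
  · linarith

lemma short {ε : ℝ} (hε : 0 < ε) : ∃ δ : ℝ, 0 < δ ∧ ∀ (χ : ℂ) (a b : ℝ), |χ.re| ≤ π →
    |a| ≤ 9 → |b| ≤ 9 → a ≤ b → b - a ≤ δ → -ε ≤ ∫ θ in a..b, Lm χ θ := by
  obtain ⟨δ, hδ, H⟩ := gc_uc (ε := ε / 4) (by positivity)
  refine ⟨δ, hδ, fun χ a b hχ ha hb hab hd => ?_⟩
  have hπ := Real.pi_lt_four
  have hπ0 := Real.pi_pos
  have hA := abs_le.1 ha
  have hB := abs_le.1 hb
  have hX := abs_le.1 hχ
  have key : ∀ β : ℝ, |β| ≤ 1 → IntervalIntegrable (fun θ : ℝ => gc (1 / 2 * θ + β)) volume a b ∧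
      -(ε / 2) ≤ ∫ θ in a..b, gc (1 / 2 * θ + β) := by
    intro β hβ
    have hβ' := abs_le.1 hβ
    constructor
    · have h1 := (gc_ii (1 / 2 * a + β) (1 / 2 * b + β)).comp_add_right β
      have h2 := h1.comp_mul_left (c := 1 / 2)
      have e1 : (1 / 2 * a + β - β) / (1 / 2) = a := by ring
      have e2 : (1 / 2 * b + β - β) / (1 / 2) = b := by ring
      rw [e1, e2] at h2
      exact h2
    · rw [intervalIntegral.integral_comp_mul_add gc (by norm_num : (1 / 2 : ℝ) ≠ 0) β]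
      have h3 := H (1 / 2 * a + β) (1 / 2 * b + β) (by rw [abs_le]; constructor <;> linarith)
        (by rw [abs_le]; constructor <;> linarith) (by
          rw [abs_of_nonneg (by linarith)]; linarith)
      have h4 := (abs_le.1 h3).1
      rw [smul_eq_mul]
      have : ((1 / 2 : ℝ))⁻¹ = 2 := by norm_num
      rw [this]
      linarith
  obtain ⟨i1, b1⟩ := key (χ.re / 4) (by rw [abs_le]; constructor <;> linarith)
  obtain ⟨i2, b2⟩ := key (-(χ.re / 4)) (by rw [abs_le]; constructor <;> linarith)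
  have hm : ∫ θ in a..b, (gc (1 / 2 * θ + χ.re / 4) + gc (1 / 2 * θ + -(χ.re / 4))) ≤
      ∫ θ in a..b, Lm χ θ := by
    apply intervalIntegral.integral_mono_ae hab (i1.add i2) (Lm_ii χ a b)
    filter_upwards [cos_ae (χ.re / 4), cos_ae (-(χ.re / 4))] with θ h1 h2
    exact Lm_ge χ θ h1 h2
  rw [intervalIntegral.integral_add i1 i2] at hm
  linarith

lemma arc {ε : ℝ} (hε : 0 < ε) : ∃ δ : ℝ, 0 < δ ∧ ∀ (χ : ℂ) (X A A' : ℝ), |χ.re| ≤ π →
    |X| ≤ 5 → 0 ≤ A → A ≤ A' → A' ≤ 4 → A' - A ≤ δ →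
    ∫ θ in (X - A)..(X + A), Lm χ θ ≤ (∫ θ in (X - A')..(X + A'), Lm χ θ) + ε := by
  obtain ⟨δ, hδ, H⟩ := short (ε := ε / 2) (by positivity)
  refine ⟨δ, hδ, fun χ X A A' hχ hX hA hAA hA' hd => ?_⟩
  have hX' := abs_le.1 hX
  have e : ∫ θ in (X - A')..(X + A'), Lm χ θ = (∫ θ in (X - A')..(X - A), Lm χ θ) +
      (∫ θ in (X - A)..(X + A), Lm χ θ) + ∫ θ in (X + A)..(X + A'), Lm χ θ := by
    rw [intervalIntegral.integral_add_adjacent_intervals (Lm_ii _ _ _) (Lm_ii _ _ _),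
      intervalIntegral.integral_add_adjacent_intervals (Lm_ii _ _ _) (Lm_ii _ _ _)]
  have h1 := H χ (X - A') (X - A) hχ (by rw [abs_le]; constructor <;> linarith)
    (by rw [abs_le]; constructor <;> linarith) (by linarith) (by linarith)
  have h2 := H χ (X + A) (X + A') hχ (by rw [abs_le]; constructor <;> linarith)
    (by rw [abs_le]; constructor <;> linarith) (by linarith) (by linarith)
  linarith

/-- the bound at the nodes -/
lemma node (hPF : S_PF) (hCNB : S_CNB) {ρs c₂ : ℝ} (hc : 0 < c₂)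
    (hL : ∀ (χ : ℂ) (t x x' : ℝ),
      |χ.re| ≤ 2 * π / 3 → |χ.im| ≤ 9 / 5 → |t| ≤ π → |x| ≤ π → |x'| ≤ π →
      1 / (2 * π) * ((∫ θ in (t + x / 2 - (π + x') / 2)..(t + x / 2 + (π + x') / 2), Lm χ θ) +
        ∫ θ in (t - x / 2 - (π - x') / 2)..(t - x / 2 + (π - x') / 2), Lm χ θ) ≤
      (s0 χ).re - c₂ * min |x| ρs ^ 2 - c₂ * min |x'| ρs ^ 2 - c₂ * min |t| ρs ^ 2)
    {ε : ℝ} (hε : 0 < ε) : ∃ τ : ℝ, 0 < τ ∧ ∀ᶠ N : ℕ in atTop, ∀ p q : ℕ, p + q + 1 = N →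
      ∀ ψ χ : ℂ, |ψ.re| ≤ π → |ψ.im| ≤ τ → |χ.re| ≤ 2 * π / 3 → |χ.im| ≤ 9 / 5 →
        ‖kh N ψ (π * ((p : ℂ) - q) / N) χ‖ ≤
          Real.exp (N * ((s0 χ).re - c₂ * min |ψ.re| ρs ^ 2 + ε)) := by
  have hπ := Real.pi_pos
  have hπ4 := Real.pi_lt_four
  have hπ2 := Real.pi_gt_three
  have hπ315 := Real.pi_lt_d2
  obtain ⟨τ, hτ, HC⟩ := hCNB (ε / 4) (by positivity)
  obtain ⟨δ, hδ, HA⟩ := arc (ε := ε / 4) (by positivity)
  have hN1 : ∀ᶠ N : ℕ in atTop, π / (N : ℝ) < δ :=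
    (tendsto_const_div_atTop_nhds_zero_nat π).eventually (gt_mem_nhds hδ)
  refine ⟨τ, hτ, ?_⟩
  filter_upwards [HC, hN1, eventually_gt_atTop 0] with N HC hN1 hN0
  intro p q hpq ψ χ hψ1 hψ2 hχ1 hχ2
  have hNR : (0 : ℝ) < N := by exact_mod_cast hN0
  have hpq' : (p : ℝ) + q + 1 = N := by exact_mod_cast hpq
  have hp0 : (0 : ℝ) ≤ p := Nat.cast_nonneg p
  have hq0 : (0 : ℝ) ≤ q := Nat.cast_nonneg q
  have hχπ : |χ.re| ≤ π := hχ1.trans (by linarith)
  set x' : ℝ := π * ((p : ℝ) - q) / N with hx'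
  have hx'π : |x'| ≤ π := by
    rw [hx', abs_le]
    constructor
    · rw [le_div_iff₀ hNR]; nlinarith
    · rw [div_le_iff₀ hNR]; nlinarith
  have hx'' := abs_le.1 hx'π
  have eA : (π + x') / 2 = π * p / N + π / (2 * N) := by
    rw [hx']
    field_simp
    linarith
  have eB : (π - x') / 2 = π * q / N + π / (2 * N) := by
    rw [hx']
    field_simp
    linarith
  have hs : 0 < π / (2 * (N : ℝ)) := by positivity
  have hs2 : π / (2 * (N : ℝ)) ≤ δ := by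
    have : π / (2 * (N : ℝ)) = π / N / 2 := by field_simp
    rw [this]
    have : 0 < π / (N : ℝ) := by positivity
    linarith
  rw [hPF N p q ψ χ hpq, norm_mul]
  set B : ℝ := Real.exp (N * ((s0 χ).re - c₂ * min |ψ.re| ρs ^ 2 + ε)) with hB
  have hbd : ∀ t ∈ Set.uIoc (-π) π, ‖Cn N p χ (t + ψ / 2) * Cn N q χ (t - ψ / 2)‖ ≤ B := by
    intro t ht
    rw [Set.uIoc_of_le (by linarith)] at ht
    have htπ : |t| ≤ π := by rw [abs_le]; exact ⟨ht.1.le, ht.2⟩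
    have htt := abs_le.1 htπ
    have hψr := abs_le.1 hψ1
    have e1 : (t + ψ / 2 : ℂ) = ((t + ψ.re / 2 : ℝ) : ℂ) + ((ψ.im / 2 : ℝ) : ℂ) * Complex.I := by
      conv_lhs => rw [← Complex.re_add_im ψ]
      push_cast
      ring
    have e2 : (t - ψ / 2 : ℂ) = ((t - ψ.re / 2 : ℝ) : ℂ) + ((-(ψ.im / 2) : ℝ) : ℂ) * Complex.I := by
      conv_lhs => rw [← Complex.re_add_im ψ]
      push_cast
      ring
    have him : |ψ.im / 2| ≤ τ := by
      rw [abs_div, abs_of_pos (by norm_num : (0:ℝ) < 2)]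
      linarith [abs_nonneg ψ.im]
    have c1 := HC p (by omega) (t + ψ.re / 2) (ψ.im / 2) χ him hχπ hχ2
    have c2 := HC q (by omega) (t - ψ.re / 2) (-(ψ.im / 2)) χ (by rw [abs_neg]; exact him) hχπ hχ2
    rw [norm_mul, e1, e2]
    refine (mul_le_mul c1 c2 (norm_nonneg _) (Real.exp_pos _).le).trans ?_
    rw [← Real.exp_add, hB]
    apply Real.exp_le_exp.2
    rw [← mul_add]
    apply mul_le_mul_of_nonneg_left _ hNR.le
    have a1 := HA χ (t + ψ.re / 2) (π * p / N) ((π + x') / 2) hχπ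
      (by rw [abs_le]; constructor <;> linarith) (by positivity) (by rw [eA]; linarith)
      (by linarith) (by rw [eA]; linarith)
    have a2 := HA χ (t - ψ.re / 2) (π * q / N) ((π - x') / 2) hχπ
      (by rw [abs_le]; constructor <;> linarith) (by positivity) (by rw [eB]; linarith)
      (by linarith) (by rw [eB]; linarith)
    have l := hL χ t ψ.re x' hχ1 hχ2 htπ hψ1 hx'π
    have m1 : 0 ≤ c₂ * min |x'| ρs ^ 2 := by positivity
    have m2 : 0 ≤ c₂ * min |t| ρs ^ 2 := by positivity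
    have hinv : 0 < 1 / (2 * π) := by positivity
    have hinv2 : 1 / (2 * π) ≤ 1 := by
      rw [div_le_one (by positivity)]
      linarith
    have s1 := mul_le_mul_of_nonneg_left (add_le_add a1 a2) hinv.le
    have s2 : 1 / (2 * π) * (((∫ θ in (t + ψ.re / 2 - (π + x') / 2)..(t + ψ.re / 2 +
        (π + x') / 2), Lm χ θ) + ε / 4) + ((∫ θ in (t - ψ.re / 2 - (π - x') / 2)..(t - ψ.re / 2 +
        (π - x') / 2), Lm χ θ) + ε / 4)) =
        1 / (2 * π) * ((∫ θ in (t + ψ.re / 2 - (π + x') / 2)..(t + ψ.re / 2 +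
        (π + x') / 2), Lm χ θ) + ∫ θ in (t - ψ.re / 2 - (π - x') / 2)..(t - ψ.re / 2 +
        (π - x') / 2), Lm χ θ) + 1 / (2 * π) * (ε / 2) := by ring
    have s3 : 1 / (2 * π) * (ε / 2) ≤ ε / 2 := by nlinarith
    rw [s2] at s1
    rw [mul_add] at s1
    linarith
  have hint := intervalIntegral.norm_integral_le_of_norm_le_const hbd
  have hnn : ‖(1 / (2 * π) : ℂ)‖ = 1 / (2 * π) := by
    rw [norm_div, norm_one, norm_mul, Complex.norm_ofNat, Complex.norm_real,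
      Real.norm_of_nonneg hπ.le]
  rw [hnn]
  have e5 : |π - -π| = 2 * π := by rw [abs_of_pos (by linarith)]; ring
  rw [e5] at hint
  refine (mul_le_mul_of_nonneg_left hint (by positivity)).trans (le_of_eq ?_)
  field_simp

theorem kbz : S_KBZ := by
  intro hPF hCNB ⟨ρs, c₂, hρ, hρ1, hc, hL⟩
  refine ⟨ρs, c₂ / 2, hρ, hρ1, by positivity, fun ε hε => ?_⟩
  obtain ⟨τ, hτ, H⟩ := node hPF hCNB hc hL (ε := ε / 3) (by positivity)
  refine ⟨min τ (ε / 3), by positivity, ?_⟩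
  have hNe : ∀ᶠ N : ℕ in atTop, (N : ℝ) ≤ Real.exp (N * (ε / 3)) := by
    have h1 : Tendsto (fun N : ℕ => (N : ℝ) * (ε / 3)) atTop atTop :=
      Tendsto.atTop_mul_const (by positivity) tendsto_natCast_atTop_atTop
    have h2 := (Real.tendsto_exp_div_pow_atTop 1).comp h1
    filter_upwards [h2.eventually_ge_atTop (1 / (ε / 3)), eventually_gt_atTop 0] with N hN hN0
    have hN0' : (0 : ℝ) < N := by exact_mod_cast hN0
    simp only [Function.comp, pow_one] at hN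
    rw [div_le_div_iff₀ (by positivity) (by positivity)] at hN
    have h3 : (N : ℝ) * (ε / 3) ≤ Real.exp (N * (ε / 3)) * (ε / 3) := by linarith
    exact le_of_mul_le_mul_right h3 (by positivity)
  filter_upwards [H, hNe, eventually_gt_atTop 0] with N H hNe hN0
  intro ψ ψ' χ h1 h2 h3 h4 h5 h6
  have hNR : (0 : ℝ) < N := by exact_mod_cast hN0
  have one : ∀ φ φ' : ℂ, |φ.re| ≤ π → |φ.im| ≤ min τ (ε / 3) → |φ'.im| ≤ min τ (ε / 3) →
      ‖kh N φ φ' χ‖ ≤ Real.exp (N * ((s0 χ).re - c₂ * min |φ.re| ρs ^ 2 + ε)) := by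
    intro φ φ' k1 k2 k3
    have hb := kh_bd hN0 φ χ (fun p q hpq =>
      H p q hpq φ χ k1 (k2.trans (min_le_left _ _)) h5 h6) φ'
    refine hb.trans ?_
    have e1 : Real.exp (N * |φ'.im| / 2) ≤ Real.exp (N * (ε / 3)) := by
      apply Real.exp_le_exp.2
      have : |φ'.im| ≤ ε / 3 := k3.trans (min_le_right _ _)
      have : (N : ℝ) * |φ'.im| ≤ N * (ε / 3) := mul_le_mul_of_nonneg_left this hNR.le
      have : 0 ≤ (N : ℝ) * |φ'.im| := by positivity
      linarith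
    have e2 : (N : ℝ) * Real.exp (N * |φ'.im| / 2) ≤
        Real.exp (N * (ε / 3)) * Real.exp (N * (ε / 3)) :=
      mul_le_mul hNe e1 (Real.exp_pos _).le (Real.exp_pos _).le
    refine (mul_le_mul_of_nonneg_right e2 (Real.exp_pos _).le).trans (le_of_eq ?_)
    rw [← Real.exp_add, ← Real.exp_add]
    congr 1
    ring
  have b1 := one ψ ψ' h1 h2 h4
  have b2 := one ψ' ψ h3 h4 h2
  rw [kh_comm] at b2
  set A1 : ℝ := N * ((s0 χ).re - c₂ * min |ψ.re| ρs ^ 2 + ε) with hA1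
  set A2 : ℝ := N * ((s0 χ).re - c₂ * min |ψ'.re| ρs ^ 2 + ε) with hA2
  have e : (N : ℝ) * ((s0 χ).re - c₂ / 2 * min |ψ.re| ρs ^ 2 - c₂ / 2 * min |ψ'.re| ρs ^ 2 + ε) =
      (A1 + A2) / 2 := by
    rw [hA1, hA2]; ring
  rw [e]
  rcases le_total A1 A2 with h | h
  · exact b1.trans (Real.exp_le_exp.2 (by linarith))
  · exact b2.trans (Real.exp_le_exp.2 (by linarith))

end Pool.Agent.Y68.CG
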