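import Pool.Agent.Y472.G.Defs

/-!
CB3-G-KBZ, first part: interpolation of the kernel at the nodes.
-/

set_option autoImplicit false

namespace Pool.Agent.Y68.CG

open Finset
open Pool.Agent.W711.HT Pool.Agent.Y472
open scoped Real

/-- the nodes on the unit circle -/
noncomputable def zt (N j : ℕ) : ℂ :=
  Complex.exp (Complex.I * (π * (1 - (N : ℂ)) / N)) * Complex.exp (2 * π * Complex.I / N) ^ j

lemma zt_ne (N j : ℕ) : zt N j ≠ 0 :=
  mul_ne_zero (Complex.exp_ne_zero _) (pow_ne_zero _ (Complex.exp_ne_zero _))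

lemma zt_eq {N j : ℕ} (hj : j < N) :
    zt N j = Complex.exp (Complex.I * (π * ((j : ℂ) - ((N - 1 - j : ℕ) : ℂ)) / N)) := by
  unfold zt
  rw [← Complex.exp_nat_mul, ← Complex.exp_add]
  congr 1
  have h : ((N - 1 - j : ℕ) : ℂ) = (N : ℂ) - 1 - j := by
    have h1 : N - 1 - j + (j + 1) = N := by omega
    have h2 : ((N - 1 - j : ℕ) : ℂ) + ((j : ℂ) + 1) = N := by exact_mod_cast h1
    linear_combination h2
  rw [h]
  ring

lemma orth {N : ℕ} (hN : 0 < N) {l k : ℕ} (hl : l < N) (hk : k < N) :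
    ∑ j ∈ range N, zt N j ^ l / zt N j ^ k = if l = k then (N : ℂ) else 0 := by
  have hp : IsPrimitiveRoot (Complex.exp (2 * π * Complex.I / N)) N :=
    Complex.isPrimitiveRoot_exp N hN.ne'
  split_ifs with h
  · subst h
    have : ∀ j ∈ range N, zt N j ^ l / zt N j ^ l = 1 := fun j _ =>
      div_self (pow_ne_zero _ (zt_ne N j))
    rw [sum_congr rfl this]
    simp
  · set w : ℂ := Complex.exp (2 * π * Complex.I / N) with hw
    have hw0 : w ≠ 0 := Complex.exp_ne_zero _
    set r : ℂ := w ^ l / w ^ k with hr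
    have hr1 : r ≠ 1 := by
      intro h1
      rw [hr, div_eq_one_iff_eq (pow_ne_zero _ hw0)] at h1
      exact h (hp.pow_inj hl hk h1)
    have hrN : r ^ N = 1 := by
      rw [hr, div_pow, ← pow_mul, ← pow_mul, mul_comm l, mul_comm k, pow_mul, pow_mul,
        hp.pow_eq_one, one_pow, one_pow, div_one]
    have h2 : ∀ j ∈ range N, zt N j ^ l / zt N j ^ k =
        (Complex.exp (Complex.I * (π * (1 - (N : ℂ)) / N)) ^ l /
          Complex.exp (Complex.I * (π * (1 - (N : ℂ)) / N)) ^ k) * r ^ j := by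
      intro j _
      unfold zt
      rw [mul_pow, mul_pow, hr, div_pow, ← hw, ← pow_mul, ← pow_mul, ← pow_mul, ← pow_mul,
        mul_comm j l, mul_comm j k, mul_div_mul_comm]
    rw [sum_congr rfl h2, ← mul_sum, geom_sum_eq hr1, hrN, sub_self, zero_div, mul_zero]

lemma interp {N M : ℕ} (hN : 0 < N) (hM : M ≤ N) (P : Polynomial ℂ) (hP : P.natDegree < M)
    (z : ℂ) : P.eval z =
      1 / (N : ℂ) * ∑ j ∈ range N, P.eval (zt N j) * ∑ k ∈ range M, (z / zt N j) ^ k := by
  have hN' : (N : ℂ) ≠ 0 := by exact_mod_cast hN.ne'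
  have e1 : ∀ x : ℂ, P.eval x = ∑ l ∈ range M, P.coeff l * x ^ l := fun x =>
    Polynomial.eval_eq_sum_range' hP x
  have e2 : ∑ j ∈ range N, P.eval (zt N j) * ∑ k ∈ range M, (z / zt N j) ^ k =
      ∑ l ∈ range M, ∑ k ∈ range M, P.coeff l * z ^ k *
        ∑ j ∈ range N, zt N j ^ l / zt N j ^ k := by
    have e4 : ∀ j ∈ range N, P.eval (zt N j) * ∑ k ∈ range M, (z / zt N j) ^ k =
        ∑ l ∈ range M, ∑ k ∈ range M, P.coeff l * z ^ k * (zt N j ^ l / zt N j ^ k) := by
      intro j _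
      rw [e1, sum_mul_sum]
      refine sum_congr rfl fun l _ => sum_congr rfl fun k _ => ?_
      rw [div_pow]
      ring
    rw [sum_congr rfl e4, sum_comm]
    refine sum_congr rfl fun l _ => ?_
    rw [sum_comm]
    refine sum_congr rfl fun k _ => ?_
    rw [mul_sum]
  rw [e2, e1 z, mul_sum]
  refine sum_congr rfl fun l hl => ?_
  have hl' : l < N := (mem_range.1 hl).trans_le hM
  have e3 : ∀ k ∈ range M, P.coeff l * z ^ k * ∑ j ∈ range N, zt N j ^ l / zt N j ^ k =
      if l = k then P.coeff l * z ^ k * N else 0 := by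
    intro k hk
    rw [orth hN hl' ((mem_range.1 hk).trans_le hM)]
    split_ifs <;> ring
  rw [sum_congr rfl e3, sum_ite_eq, if_pos hl]
  field_simp

/-- the factors `R_d` as polynomials -/
lemma Rp_poly (N d : ℕ) : ∃ Q : Polynomial ℂ, Q.natDegree ≤ 2 * d ∧ ∀ x : ℂ,
    Rp N d x * Complex.exp (Complex.I * x) ^ d = Q.eval (Complex.exp (Complex.I * x)) := by
  induction d with
  | zero => exact ⟨1, by simp, fun x => by simp [Rp]⟩
  | succ d ih =>
    obtain ⟨Q, hQ, h⟩ := ih
    refine ⟨Q * (Polynomial.X ^ 2 + Polynomial.C (2 * (Real.cos (phi N d) : ℂ)) * Polynomial.X +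
      1), ?_, fun x => ?_⟩
    · refine (Polynomial.natDegree_mul_le).trans ?_
      have : (Polynomial.X ^ 2 + Polynomial.C (2 * (Real.cos (phi N d) : ℂ)) * Polynomial.X +
          1 : Polynomial ℂ).natDegree ≤ 2 := by
        compute_degree
      omega
    · have h1 : Rp N (d + 1) x = Rp N d x * (2 * Complex.cos x + 2 * (Real.cos (phi N d) : ℂ)) := by
        unfold Rp
        rw [prod_range_succ]
      have h2 : 2 * Complex.cos x * Complex.exp (Complex.I * x) =
          Complex.exp (Complex.I * x) ^ 2 + 1 := by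
        have h3 : Complex.exp (-x * Complex.I) * Complex.exp (Complex.I * x) = 1 := by
          rw [← Complex.exp_add]
          have : -x * Complex.I + Complex.I * x = 0 := by ring
          rw [this, Complex.exp_zero]
        rw [Complex.cos, mul_comm Complex.I x] at *
        linear_combination h3
      rw [h1, Polynomial.eval_mul, ← h x]
      simp only [Polynomial.eval_add, Polynomial.eval_pow, Polynomial.eval_X, Polynomial.eval_mul,
        Polynomial.eval_C, Polynomial.eval_one]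
      rw [pow_succ]
      linear_combination (Rp N d x * Complex.exp (Complex.I * x) ^ d) * h2

lemma kh_poly (N : ℕ) (ψ χ : ℂ) : ∃ P : Polynomial ℂ, P.natDegree ≤ 2 * ((N - 1) / 2) ∧
    ∀ x : ℂ, kh N ψ x χ * Complex.exp (Complex.I * x) ^ ((N - 1) / 2) =
      P.eval (Complex.exp (Complex.I * x)) := by
  choose Q hQ h using Rp_poly N
  set n0 := (N - 1) / 2 with hn0
  refine ⟨∑ d ∈ range (n0 + 1), Polynomial.C (Rp N d ψ * Tg N d χ / (Sd N d : ℂ) ^ 2) *
    (Q d * Polynomial.X ^ (n0 - d)), ?_, fun x => ?_⟩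
  · refine Polynomial.natDegree_sum_le_of_forall_le _ _ fun d hd => ?_
    have hd' : d ≤ n0 := Nat.lt_succ_iff.1 (mem_range.1 hd)
    refine (Polynomial.natDegree_C_mul_le _ _).trans ?_
    refine (Polynomial.natDegree_mul_le).trans ?_
    rw [Polynomial.natDegree_X_pow]
    have := hQ d
    omega
  · rw [Polynomial.eval_finsetSum]
    unfold kh
    rw [sum_mul]
    refine sum_congr rfl fun d hd => ?_
    have hd' : d ≤ n0 := Nat.lt_succ_iff.1 (mem_range.1 hd)
    rw [Polynomial.eval_mul, Polynomial.eval_C, Polynomial.eval_mul, Polynomial.eval_pow,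
      Polynomial.eval_X, ← h d x]
    have h1 : Complex.exp (Complex.I * x) ^ n0 =
        Complex.exp (Complex.I * x) ^ d * Complex.exp (Complex.I * x) ^ (n0 - d) := by
      rw [← pow_add]
      congr 1
      omega
    rw [h1]
    ring

/-- bound of the kernel by its values at the nodes -/
lemma kh_bd {N : ℕ} (hN : 0 < N) (ψ χ : ℂ) {B : ℝ}
    (hB : ∀ p q : ℕ, p + q + 1 = N → ‖kh N ψ (π * ((p : ℂ) - q) / N) χ‖ ≤ B) (x : ℂ) :
    ‖kh N ψ x χ‖ ≤ N * Real.exp (N * |x.im| / 2) * B := by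
  obtain ⟨P, hP, h⟩ := kh_poly N ψ χ
  set n0 := (N - 1) / 2 with hn0
  have hNR : (0 : ℝ) < N := by exact_mod_cast hN
  have hB0 : 0 ≤ B := (norm_nonneg _).trans (hB (N - 1) 0 (by omega))
  have hM : 2 * n0 + 1 ≤ N := by omega
  have hi := interp hN hM P (by omega) (Complex.exp (Complex.I * x))
  have hnz : ∀ y : ℂ, ‖Complex.exp (Complex.I * y)‖ = Real.exp (-y.im) := by
    intro y
    rw [Complex.norm_exp]
    congr 1
    simp
  have hzt1 : ∀ j ∈ range N, ‖zt N j‖ = 1 := by
    intro j hj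
    rw [zt_eq (mem_range.1 hj), hnz]
    have : (π * ((j : ℂ) - ((N - 1 - j : ℕ) : ℂ)) / N : ℂ).im = 0 := by
      have e : (π * ((j : ℂ) - ((N - 1 - j : ℕ) : ℂ)) / N : ℂ) =
        ((π * ((j : ℝ) - ((N - 1 - j : ℕ) : ℝ)) / N : ℝ) : ℂ) := by push_cast; ring
      rw [e, Complex.ofReal_im]
    rw [this]
    simp
  have hPj : ∀ j ∈ range N, ‖P.eval (zt N j)‖ ≤ B := by
    intro j hj
    have hj' := mem_range.1 hj
    have e := h (π * ((j : ℂ) - ((N - 1 - j : ℕ) : ℂ)) / N)
    rw [← zt_eq hj'] at e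
    rw [← e, norm_mul, norm_pow, hzt1 j hj, one_pow, mul_one]
    exact hB j (N - 1 - j) (by omega)
  have hsum : ‖P.eval (Complex.exp (Complex.I * x))‖ ≤
      B * ∑ k ∈ range (2 * n0 + 1), Real.exp (-x.im) ^ k := by
    rw [hi, norm_mul, norm_div, norm_one, Complex.norm_natCast]
    have : ‖∑ j ∈ range N, P.eval (zt N j) *
        ∑ k ∈ range (2 * n0 + 1), (Complex.exp (Complex.I * x) / zt N j) ^ k‖ ≤
        ∑ j ∈ range N, B * ∑ k ∈ range (2 * n0 + 1), Real.exp (-x.im) ^ k := by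
      refine (norm_sum_le _ _).trans (sum_le_sum fun j hj => ?_)
      rw [norm_mul]
      refine mul_le_mul (hPj j hj) ?_ (norm_nonneg _) hB0
      refine (norm_sum_le _ _).trans (sum_le_sum fun k _ => ?_)
      rw [norm_pow, norm_div, hzt1 j hj, div_one, hnz]
    refine (mul_le_mul_of_nonneg_left this (by positivity)).trans (le_of_eq ?_)
    rw [sum_const, card_range, nsmul_eq_mul]
    field_simp
  have hk : ‖kh N ψ x χ‖ * Real.exp (-x.im) ^ n0 = ‖P.eval (Complex.exp (Complex.I * x))‖ := by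
    rw [← h x, norm_mul, norm_pow, hnz]
  have hk2 : ‖kh N ψ x χ‖ = ‖P.eval (Complex.exp (Complex.I * x))‖ * Real.exp (n0 * x.im) := by
    rw [← hk, mul_assoc, ← Real.exp_nat_mul, ← Real.exp_add]
    have : (n0 : ℝ) * -x.im + n0 * x.im = 0 := by ring
    rw [this, Real.exp_zero, mul_one]
  rw [hk2]
  refine (mul_le_mul_of_nonneg_right hsum (Real.exp_pos _).le).trans ?_
  rw [mul_assoc, sum_mul, mul_comm]
  refine mul_le_mul_of_nonneg_right ?_ hB0
  have h3 : ∀ k ∈ range (2 * n0 + 1), Real.exp (-x.im) ^ k * Real.exp (n0 * x.im) ≤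
      Real.exp (N * |x.im| / 2) := by
    intro k hk
    have hk' : k ≤ 2 * n0 := Nat.lt_succ_iff.1 (mem_range.1 hk)
    rw [← Real.exp_nat_mul, ← Real.exp_add]
    apply Real.exp_le_exp.2
    have e : (k : ℝ) * -x.im + n0 * x.im = ((n0 : ℝ) - k) * x.im := by ring
    rw [e]
    have a1 : |((n0 : ℝ) - k)| ≤ n0 := by
      rw [abs_le]
      have : (k : ℝ) ≤ 2 * n0 := by exact_mod_cast hk'
      constructor
      · linarith
      · linarith [Nat.cast_nonneg (α := ℝ) k]
    have a2 : (n0 : ℝ) ≤ N / 2 := by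
      have : 2 * n0 ≤ N := by omega
      have : 2 * (n0 : ℝ) ≤ N := by exact_mod_cast this
      linarith
    calc ((n0 : ℝ) - k) * x.im ≤ |((n0 : ℝ) - k) * x.im| := le_abs_self _
      _ = |((n0 : ℝ) - k)| * |x.im| := abs_mul _ _
      _ ≤ (N / 2) * |x.im| := mul_le_mul_of_nonneg_right (a1.trans a2) (abs_nonneg _)
      _ = N * |x.im| / 2 := by ring
  refine (sum_le_sum h3).trans ?_
  rw [sum_const, card_range, nsmul_eq_mul]
  refine mul_le_mul_of_nonneg_right ?_ (Real.exp_pos _).le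
  exact_mod_cast hM

lemma kh_comm (N : ℕ) (ψ ψ' χ : ℂ) : kh N ψ ψ' χ = kh N ψ' ψ χ := by
  unfold kh
  refine sum_congr rfl fun d _ => ?_
  rw [mul_comm (Rp N d ψ)]

end Pool.Agent.Y68.CG
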